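import Mathlib

/-!
For `n = 8` a partition of `{0, …, 255}` with equal power sums up to degree `7` whose defect is
smaller than that of the Thue–Morse partition.
-/

set_option autoImplicit false

namespace Pool.Agent.Results.MP_f4b4d0_co.BetterPartition

/-- `N_n = {0, 1, …, 2^n - 1}`. -/
def N (n : ℕ) : Finset ℕ := Finset.range (2 ^ n)

/-- `{S, T}` is a partition of `N_n` with property `P_n`. -/
def HasP (n : ℕ) (S T : Finset ℕ) : Prop :=
  Disjoint S T ∧ S ∪ T = N n ∧ ∀ i < n, ∑ s ∈ S, (s : ℤ) ^ i = ∑ t ∈ T, (t : ℤ) ^ i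

/-- The defect `D(S, T)`. -/
def defect (n : ℕ) (S T : Finset ℕ) : ℤ := ∑ s ∈ S, (s : ℤ) ^ n - ∑ t ∈ T, (t : ℤ) ^ n

/-- The Thue–Morse set of the `k ∈ N_n` whose number of binary ones has parity `e`. -/
def TM (n e : ℕ) : Finset ℕ := (N n).filter fun k => (Nat.digits 2 k).sum % 2 = e

/-- The indicator of our set `S`. -/
def mask : ℕ :=
  68117961303733668567201140498685640393145199718315732551387396490691101497705

/-- Our set `S`. -/
def S8 : Finset ℕ := (N 8).filter fun k => mask.testBit k = true

/-- Its complement. -/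
def T8 : Finset ℕ := (N 8).filter fun k => mask.testBit k = false

theorem hasP : HasP 8 S8 T8 := by
  refine ⟨by decide +kernel, by decide +kernel, by decide +kernel⟩

theorem defect_S8 : defect 8 S8 T8 = 2267632926720 := by decide +kernel

theorem defect_TM : defect 8 (TM 8 0) (TM 8 1) = 10823317585920 := by decide +kernel

/-- **Disproof of Q1** (with `n = 8`): there is a partition `{S, T}` of `N_8` with property `P_8`,
different from the Thue–Morse partition, whose defect is strictly smaller in absolute value. -/
theorem result : ∃ S T : Finset ℕ, HasP 8 S T ∧ HasP 8 (TM 8 0) (TM 8 1) ∧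
    |defect 8 S T| < |defect 8 (TM 8 0) (TM 8 1)| := by
  refine ⟨S8, T8, hasP, ⟨by decide +kernel, by decide +kernel, by decide +kernel⟩, ?_⟩
  rw [defect_S8, defect_TM]
  norm_num

end Pool.Agent.Results.MP_f4b4d0_co.BetterPartition
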